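import Pool.Agent.W488.IX.Sch

set_option autoImplicit false

open MeasureTheory

namespace Pool.Agent.Results.MP_3dd6d4_an.NormOneSharp

/-- The case `n = 1` of the question, for every real `p ≥ 2`: the Beurling transform (the Fourier
multiplier with symbol `conj ξ / ξ`) has norm at most `p - 1` on `L^p` of the plane. -/
theorem result (p : ℝ) (hp : 2 ≤ p) (f : SchwartzMap ℂ ℂ) :
    eLpNorm
      (fun z : ℂ => ∫ ξ : ℂ,
        Complex.exp (2 * (Real.pi : ℂ) * Complex.I * ((z.re * ξ.re + z.im * ξ.im : ℝ) : ℂ)) *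
          ((starRingEnd ℂ ξ / ξ) ^ 1 *
            ∫ w : ℂ, Complex.exp (-(2 * (Real.pi : ℂ) * Complex.I *
              ((w.re * ξ.re + w.im * ξ.im : ℝ) : ℂ))) * f w))
      (ENNReal.ofReal p) volume
    ≤ ENNReal.ofReal (((1 : ℕ) : ℝ) ^ (1 - 2 / p) * (p - 1)) *
      eLpNorm (fun z : ℂ => f z) (ENNReal.ofReal p) volume := by
  have h : ((1 : ℕ) : ℝ) ^ (1 - 2 / p) * (p - 1) = p - 1 := by
    rw [Nat.cast_one, Real.one_rpow, one_mul]
  rw [h]
  exact W488.IX.Sch.form p hp f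

end Pool.Agent.Results.MP_3dd6d4_an.NormOneSharp
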